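import Pool.Agent.W253.NC.Comb
import Pool.Agent.W423.NC.Defs

/-!
# The expansion of the kernel
-/

set_option autoImplicit false

open Finset

namespace Pool.Agent.W253.NC

open Pool.Agent.W423.NC Pool.Agent.W423.MG

variable {r N P : ℕ}

/-- restriction -/
def rs {J J' : Finset (Fin r)} (h : J ⊆ J') : (J' → ℤ) →+ (J → ℤ) where
  toFun y i := y ⟨i, h i.2⟩
  map_zero' := rfl
  map_add' _ _ := rfl

theorem rs_surj {J J' : Finset (Fin r)} (h : J ⊆ J') : Function.Surjective (rs h) := by
  classical
  intro y
  refine ⟨fun i => if hi : (i : Fin r) ∈ J then y ⟨i, hi⟩ else 0, ?_⟩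
  funext i
  show (if hi : (i : Fin r) ∈ J then y ⟨i, hi⟩ else 0) = y i
  rw [dif_pos i.2]

theorem idxC_insert (g : Fin r → Fin (P+1)) (v : Fin r → Fin N → ℕ) (j : Fin r)
    (J : Finset (Fin r)) (h : ∀ i ∈ J, g i ≠ g j) : idxC g v (insert j J) = idxC g v J := by
  classical
  have hsub : J ⊆ insert j J := Finset.subset_insert j J
  have hrange : (evC g v (insert j J)).range = (evC g v J).range.comap (rs hsub) := by
    ext y
    rw [AddSubgroup.mem_comap]
    constructor
    · rintro ⟨p, rfl⟩
      exact ⟨p, rfl⟩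
    · rintro ⟨p, hp⟩
      refine ⟨(p.1, Function.update p.2 (g j)
        (y ⟨j, Finset.mem_insert_self j J⟩ - ∑ i, p.1 i * (v j i : ℤ))), ?_⟩
      funext i
      obtain ⟨i, hi⟩ := i
      rcases Finset.mem_insert.1 hi with rfl | hi'
      · show ∑ l, p.1 l * (v i l : ℤ) + Function.update p.2 (g i) _ (g i) = _
        rw [Function.update_self]
        ring
      · show ∑ l, p.1 l * (v i l : ℤ) + Function.update p.2 (g j) _ (g i) = _
        rw [Function.update_of_ne (h i hi')]
        exact congrFun hp ⟨i, hi'⟩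
  unfold idxC
  rw [hrange, AddSubgroup.index_comap_of_surjective _ (rs_surj hsub)]

theorem ker2 : Pool.Agent.W423.NC.TaskKer2 := by
  classical
  intro r N P g v hg
  have hM : ∀ k, k ∉ mulS g → (univ.filter fun j => g j = k).card = 1 := by
    intro k hk
    have h1 : ¬ 2 ≤ (univ.filter fun j => g j = k).card := fun h =>
      hk (Finset.mem_filter.2 ⟨Finset.mem_univ k, h⟩)
    have h2 : 0 < (univ.filter fun j => g j = k).card := by
      obtain ⟨j, hj⟩ := hg k
      exact Finset.card_pos.2 ⟨j, Finset.mem_filter.2 ⟨Finset.mem_univ j, hj⟩⟩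
    omega
  have hS : ∀ k, sgm g k = ∑ j ∈ univ.filter (fun j => g j = k),
      (MvPolynomial.X j : MvPolynomial (Fin r) ℂ) := by
    intro k
    unfold sgm gs
    rw [Finset.sum_filter]
  have h := expand g (mulS g) (sgm g) (MvPolynomial.X : Fin r → MvPolynomial (Fin r) ℂ)
    (fun J => MvPolynomial.C ((idxC g v J : ℂ) ^ 2)) hS
    (fun j J hJ => by simp only [idxC_insert g v j J hJ]) hM
  have hleft : Ph g (mulS g) (sgm g) (MvPolynomial.X : Fin r → MvPolynomial (Fin r) ℂ)
      (fun J => MvPolynomial.C ((idxC g v J : ℂ) ^ 2)) ∅ = kerN g v := by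
    rw [Ph_eq g (mulS g) (sgm g) _ _ ∅ (univ.filter fun j => g j ∈ mulS g).powerset (by
      intro J
      rw [Finset.mem_powerset]
      constructor
      · intro h2
        refine fun k => ⟨fun hk => absurd hk (Finset.notMem_empty k), fun _ hk j hj hjk => ?_⟩
        apply hk
        rw [← hjk]
        exact (Finset.mem_filter.1 (h2 hj)).2
      · intro h2 j hj
        rw [Finset.mem_filter]
        refine ⟨Finset.mem_univ j, ?_⟩
        by_contra hcon
        exact (h2 (g j)).2 (Finset.notMem_empty _) hcon j hj rfl)]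
    unfold kerN
    have h2 : ∀ J : Finset (Fin r), ∏ k, wt g (mulS g) (sgm g) ∅ J k =
        (∏ k ∈ mulS g, sgm g k) *
          ∏ j ∈ univ.filter (fun j => g j ∉ mulS g),
            (MvPolynomial.X j : MvPolynomial (Fin r) ℂ) := by
      intro J
      have h3 : ∀ k, wt g (mulS g) (sgm g) ∅ J k = sgm g k := by
        intro k
        unfold wt
        rw [if_neg (Finset.notMem_empty k)]
      rw [Finset.prod_congr rfl fun k _ => h3 k, ← Finset.prod_mul_prod_compl (mulS g)]
      congr 1
      rw [← Finset.prod_fiberwise_of_maps_to (s := univ.filter (fun j => g j ∉ mulS g))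
        (t := (mulS g)ᶜ) (g := g) (fun j hj => by
          rw [Finset.mem_compl]
          exact (Finset.mem_filter.1 hj).2)]
      refine Finset.prod_congr rfl fun k hk => ?_
      rw [Finset.mem_compl] at hk
      rw [Finset.filter_filter]
      have h4 : (univ.filter fun j => g j ∉ mulS g ∧ g j = k) =
          univ.filter fun j => g j = k := by
        refine Finset.filter_congr fun j _ => ?_
        constructor
        · exact fun h => h.2
        · intro h
          exact ⟨by rw [h]; exact hk, h⟩
      rw [h4, hS k]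
      obtain ⟨j, hj⟩ := Finset.card_eq_one.1 (hM k hk)
      rw [hj, Finset.sum_singleton, Finset.prod_singleton]
    rw [Finset.sum_mul]
    exact Finset.sum_congr rfl fun J _ => by rw [h2 J]
  have hright : Ph g (mulS g) (sgm g) (MvPolynomial.X : Fin r → MvPolynomial (Fin r) ℂ)
      (fun J => MvPolynomial.C ((idxC g v J : ℂ) ^ 2)) univ =
      ∑ J ∈ Finset.univ.filter (fun J : Finset (Fin r) => ∀ k, ∃ j ∈ J, g j = k),
        MvPolynomial.C ((idxC g v J : ℂ) ^ 2) * ((∏ j ∈ J, MvPolynomial.X j) *
          bts g (hJ g J)) := by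
    rw [Ph_eq g (mulS g) (sgm g) _ _ univ
      (Finset.univ.filter (fun J : Finset (Fin r) => ∀ k, ∃ j ∈ J, g j = k)) (by
      intro J
      rw [Finset.mem_filter, and_iff_right (Finset.mem_univ J)]
      constructor
      · exact fun h2 k => ⟨fun _ => h2 k, fun hk => absurd (Finset.mem_univ k) hk⟩
      · exact fun h2 k => (h2 k).1 (Finset.mem_univ k))]
    refine Finset.sum_congr rfl fun J _ => ?_
    rw [mul_assoc]
    congr 2
    have h3 : ∀ k, wt g (mulS g) (sgm g) univ J k = if k ∈ mulS g then
        sgm g k + (if (J.filter fun j => g j = k).card = 1 then 1 else 0) else 1 := by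
      intro k
      unfold wt
      rw [if_pos (Finset.mem_univ k)]
    rw [Finset.prod_congr rfl fun k _ => h3 k, Finset.prod_ite_mem, Finset.univ_inter]
    unfold bts hJ
    rw [map_prod]
    refine Finset.prod_congr rfl fun k _ => ?_
    rw [map_add, MvPolynomial.aeval_X]
    congr 1
    split_ifs
    · rw [map_one]
    · rw [map_zero]
  rw [← hleft, h, hright]

end Pool.Agent.W253.NC
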