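import Mathlib

/-!
# A sum over subsets, group by group
-/

set_option autoImplicit false

open Finset

namespace Pool.Agent.W253.NC

variable {ι κ R : Type} [DecidableEq ι] [Fintype ι] [DecidableEq κ] [Fintype κ] [CommRing R]

/-- weight of the group `k` -/
def wt (g : ι → κ) (M : Finset κ) (S : κ → R) (A : Finset κ) (J : Finset ι) (k : κ) : R :=
  if k ∈ A then (if k ∈ M then S k + (if (J.filter fun j => g j = k).card = 1 then 1 else 0) else 1)
  else S k

/-- condition on the group `k` -/
def Ok (g : ι → κ) (M A : Finset κ) (J : Finset ι) (k : κ) : Prop :=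
  (k ∈ A → ∃ j ∈ J, g j = k) ∧ (k ∉ A → k ∉ M → ∀ j ∈ J, g j ≠ k)

open scoped Classical in
/-- the partial sum -/
noncomputable def Ph (g : ι → κ) (M : Finset κ) (S : κ → R) (X : ι → R) (c : Finset ι → R)
    (A : Finset κ) : R :=
  ∑ J ∈ univ.filter (fun J : Finset ι => ∀ k, Ok g M A J k),
    c J * (∏ j ∈ J, X j) * ∏ k, wt g M S A J k

open scoped Classical in
theorem Ph_eq (g : ι → κ) (M : Finset κ) (S : κ → R) (X : ι → R) (c : Finset ι → R)
    (A : Finset κ) (T : Finset (Finset ι)) (hT : ∀ J, J ∈ T ↔ ∀ k, Ok g M A J k) :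
    Ph g M S X c A = ∑ J ∈ T, c J * (∏ j ∈ J, X j) * ∏ k, wt g M S A J k := by
  unfold Ph
  refine Finset.sum_congr ?_ fun _ _ => rfl
  ext J
  rw [Finset.mem_filter, hT]
  exact and_iff_right (Finset.mem_univ J)

theorem filter_insert_ne {g : ι → κ} {j : ι} {J : Finset ι} {k : κ} (h : g j ≠ k) :
    (insert j J).filter (fun i => g i = k) = J.filter fun i => g i = k := by
  rw [Finset.filter_insert, if_neg h]

theorem Ok_insert {g : ι → κ} {M A : Finset κ} {j : ι} {J : Finset ι} {k : κ} (h : g j ≠ k) :
    Ok g M A (insert j J) k ↔ Ok g M A J k := by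
  unfold Ok
  constructor
  · rintro ⟨h1, h2⟩
    refine ⟨fun hk => ?_, fun hk hm i hi => h2 hk hm i (Finset.mem_insert_of_mem hi)⟩
    obtain ⟨i, hi, hik⟩ := h1 hk
    rcases Finset.mem_insert.1 hi with rfl | hi
    · exact absurd hik h
    · exact ⟨i, hi, hik⟩
  · rintro ⟨h1, h2⟩
    refine ⟨fun hk => ?_, fun hk hm i hi => ?_⟩
    · obtain ⟨i, hi, hik⟩ := h1 hk
      exact ⟨i, Finset.mem_insert_of_mem hi, hik⟩
    · rcases Finset.mem_insert.1 hi with rfl | hi
      · exact h
      · exact h2 hk hm i hi

open scoped Classical in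
theorem bij (g : ι → κ) (M A : Finset κ) (S : κ → R) (X : ι → R) (c : Finset ι → R)
    (hS : ∀ k, S k = ∑ j ∈ univ.filter (fun j => g j = k), X j)
    (hc : ∀ j J, (∀ i ∈ J, g i ≠ g j) → c (insert j J) = c J) (k : κ) :
    ∑ J ∈ univ.filter (fun J : Finset ι => (∀ j ∈ J, g j ≠ k) ∧ ∀ l, l ≠ k → Ok g M A J l),
      c J * (∏ j ∈ J, X j) * (S k * ∏ l ∈ univ.erase k, wt g M S A J l) =
    ∑ J ∈ univ.filter (fun J : Finset ι => (J.filter fun j => g j = k).card = 1 ∧
        ∀ l, l ≠ k → Ok g M A J l),
      c J * (∏ j ∈ J, X j) * ∏ l ∈ univ.erase k, wt g M S A J l := by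
  have h1 : ∀ J : Finset ι, c J * (∏ j ∈ J, X j) * (S k * ∏ l ∈ univ.erase k, wt g M S A J l) =
      ∑ j ∈ univ.filter (fun j => g j = k),
        c J * (∏ j ∈ J, X j) * (X j * ∏ l ∈ univ.erase k, wt g M S A J l) := by
    intro J
    rw [hS k, Finset.sum_mul, Finset.mul_sum]
  rw [Finset.sum_congr rfl fun J _ => h1 J, ← Finset.sum_product']
  refine Finset.sum_bij (fun x _ => insert x.2 x.1) ?_ ?_ ?_ ?_
  · rintro ⟨J, j⟩ hx
    simp only [Finset.mem_product, Finset.mem_filter, Finset.mem_univ, true_and] at hx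
    obtain ⟨⟨hJ1, hJ2⟩, hj⟩ := hx
    simp only [Finset.mem_filter, Finset.mem_univ, true_and]
    constructor
    · rw [Finset.filter_insert, if_pos hj]
      have h2 : J.filter (fun i => g i = k) = ∅ :=
        Finset.filter_eq_empty_iff.2 fun i hi => hJ1 i hi
      rw [h2]
      simp
    · intro l hl
      exact (Ok_insert (by rw [hj]; exact Ne.symm hl)).2 (hJ2 l hl)
  · rintro ⟨J, j⟩ hx ⟨J', j'⟩ hx' hEq
    simp only [Finset.mem_product, Finset.mem_filter, Finset.mem_univ, true_and] at hx hx'
    obtain ⟨⟨hJ1, hJ2⟩, hj⟩ := hx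
    obtain ⟨⟨hJ1', hJ2'⟩, hj'⟩ := hx'
    simp only at hEq
    have h2 : J = J' := by
      ext i
      constructor
      · intro hi
        have h3 : i ∈ insert j' J' := hEq ▸ Finset.mem_insert_of_mem hi
        rcases Finset.mem_insert.1 h3 with rfl | h3
        · exact absurd hj' (hJ1 i hi)
        · exact h3
      · intro hi
        have h3 : i ∈ insert j J := hEq.symm ▸ Finset.mem_insert_of_mem hi
        rcases Finset.mem_insert.1 h3 with rfl | h3
        · exact absurd hj (hJ1' i hi)
        · exact h3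
    have h3 : j = j' := by
      have h4 : j ∈ insert j' J' := hEq ▸ Finset.mem_insert_self j J
      rcases Finset.mem_insert.1 h4 with h4 | h4
      · exact h4
      · exact absurd hj (hJ1' j h4)
    rw [h2, h3]
  · intro J' hJ'
    simp only [Finset.mem_filter, Finset.mem_univ, true_and] at hJ'
    obtain ⟨hcard, hOk⟩ := hJ'
    obtain ⟨j, hj⟩ := Finset.card_eq_one.1 hcard
    have hjm : j ∈ J'.filter fun i => g i = k := by rw [hj]; exact Finset.mem_singleton_self j
    obtain ⟨hj1, hj2⟩ := Finset.mem_filter.1 hjm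
    have hins : insert j (J'.filter fun i => g i ≠ k) = J' := by
      ext i
      rw [Finset.mem_insert, Finset.mem_filter]
      constructor
      · rintro (rfl | h)
        · exact hj1
        · exact h.1
      · intro hi
        by_cases hik : g i = k
        · left
          have : i ∈ J'.filter fun i => g i = k := Finset.mem_filter.2 ⟨hi, hik⟩
          rw [hj] at this
          exact Finset.mem_singleton.1 this
        · exact Or.inr ⟨hi, hik⟩
    refine ⟨(J'.filter fun i => g i ≠ k, j), ?_, hins⟩
    simp only [Finset.mem_product, Finset.mem_filter, Finset.mem_univ, true_and]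
    refine ⟨⟨fun i hi => hi.2, fun l hl => ?_⟩, hj2⟩
    have h3 := hOk l hl
    rw [← hins, Ok_insert (by rw [hj2]; exact Ne.symm hl)] at h3
    exact h3
  · rintro ⟨J, j⟩ hx
    simp only [Finset.mem_product, Finset.mem_filter, Finset.mem_univ, true_and] at hx
    obtain ⟨⟨hJ1, hJ2⟩, hj⟩ := hx
    simp only
    have hjJ : j ∉ J := fun h => hJ1 j h hj
    have h2 : ∏ l ∈ univ.erase k, wt g M S A (insert j J) l =
        ∏ l ∈ univ.erase k, wt g M S A J l := by
      refine Finset.prod_congr rfl fun l hl => ?_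
      have hl' : g j ≠ l := by rw [hj]; exact Ne.symm (Finset.ne_of_mem_erase hl)
      unfold wt
      rw [filter_insert_ne hl']
    rw [h2, hc j J (fun i hi => by rw [hj]; exact hJ1 i hi), Finset.prod_insert hjJ]
    ring

open scoped Classical in
theorem step (g : ι → κ) (M : Finset κ) (S : κ → R) (X : ι → R) (c : Finset ι → R)
    (hS : ∀ k, S k = ∑ j ∈ univ.filter (fun j => g j = k), X j)
    (hc : ∀ j J, (∀ i ∈ J, g i ≠ g j) → c (insert j J) = c J)
    (hM : ∀ k, k ∉ M → (univ.filter fun j => g j = k).card = 1) (A : Finset κ) (k : κ)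
    (hk : k ∉ A) : Ph g M S X c A = Ph g M S X c (insert k A) := by
  have hP : ∀ J : Finset ι, ∏ l ∈ univ.erase k, wt g M S (insert k A) J l =
      ∏ l ∈ univ.erase k, wt g M S A J l := by
    intro J
    refine Finset.prod_congr rfl fun l hl => ?_
    have hl' := Finset.ne_of_mem_erase hl
    unfold wt
    simp only [Finset.mem_insert, hl', false_or]
  have hsplit : ∀ (B : Finset κ) (J : Finset ι), ∏ l, wt g M S B J l =
      wt g M S B J k * ∏ l ∈ univ.erase k, wt g M S B J l := fun B J =>
    (Finset.mul_prod_erase _ _ (Finset.mem_univ k)).symm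
  have hOk : ∀ (J : Finset ι) (l : κ), l ≠ k → (Ok g M (insert k A) J l ↔ Ok g M A J l) := by
    intro J l hl
    unfold Ok
    simp only [Finset.mem_insert, hl, false_or]
  unfold Ph
  by_cases hkM : k ∈ M
  · -- a group with several elements
    have hA : ∀ J : Finset ι, (∀ l, Ok g M A J l) ↔ ∀ l, l ≠ k → Ok g M A J l := by
      intro J
      constructor
      · exact fun h l _ => h l
      · intro h l
        by_cases hl : l = k
        · subst hl
          exact ⟨fun h => absurd h hk, fun _ h => absurd hkM h⟩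
        · exact h l hl
    have hA' : ∀ J : Finset ι, (∀ l, Ok g M (insert k A) J l) ↔
        (∀ l, l ≠ k → Ok g M A J l) ∧ ¬ ∀ j ∈ J, g j ≠ k := by
      intro J
      constructor
      · intro h
        refine ⟨fun l hl => (hOk J l hl).1 (h l), fun h2 => ?_⟩
        obtain ⟨j, hj, hj2⟩ := (h k).1 (Finset.mem_insert_self k A)
        exact h2 j hj hj2
      · rintro ⟨h1, h2⟩ l
        by_cases hl : l = k
        · subst hl
          refine ⟨fun _ => ?_, fun h => absurd (Finset.mem_insert_self _ A) h⟩
          push Not at h2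
          exact h2
        · exact (hOk J l hl).2 (h1 l hl)
    simp only [hA, hA', hsplit, hP]
    rw [← Finset.sum_filter_add_sum_filter_not
      (univ.filter fun J : Finset ι => ∀ l, l ≠ k → Ok g M A J l) (fun J => ∀ j ∈ J, g j ≠ k),
      Finset.filter_filter, Finset.filter_filter]
    have hb := bij g M A S X c hS hc k
    have h1 : ∑ J ∈ univ.filter (fun J : Finset ι =>
          (∀ l, l ≠ k → Ok g M A J l) ∧ ∀ j ∈ J, g j ≠ k),
        c J * (∏ j ∈ J, X j) * (wt g M S A J k * ∏ l ∈ univ.erase k, wt g M S A J l) =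
        ∑ J ∈ univ.filter (fun J : Finset ι => (∀ l, l ≠ k → Ok g M A J l) ∧
          ¬ ∀ j ∈ J, g j ≠ k), c J * (∏ j ∈ J, X j) *
            ((if (J.filter fun j => g j = k).card = 1 then 1 else 0) *
              ∏ l ∈ univ.erase k, wt g M S A J l) := by
      have h2 : ∀ J : Finset ι, wt g M S A J k = S k := by
        intro J
        unfold wt
        rw [if_neg hk]
      simp only [h2]
      have h3 : univ.filter (fun J : Finset ι => (∀ l, l ≠ k → Ok g M A J l) ∧
          ∀ j ∈ J, g j ≠ k) = univ.filter (fun J : Finset ι => (∀ j ∈ J, g j ≠ k) ∧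
          ∀ l, l ≠ k → Ok g M A J l) := by
        refine Finset.filter_congr fun J _ => ?_
        exact and_comm
      rw [h3, hb]
      have h4 : ∀ J : Finset ι, c J * (∏ j ∈ J, X j) *
            ((if (J.filter fun j => g j = k).card = 1 then 1 else 0) *
              ∏ l ∈ univ.erase k, wt g M S A J l) =
          if (J.filter fun j => g j = k).card = 1 then
            c J * (∏ j ∈ J, X j) * ∏ l ∈ univ.erase k, wt g M S A J l else 0 := by
        intro J
        split_ifs
        · rw [one_mul]
        · rw [zero_mul, mul_zero]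
      simp only [h4]
      rw [← Finset.sum_filter, Finset.filter_filter]
      refine Finset.sum_congr (Finset.filter_congr fun J _ => ?_) fun _ _ => rfl
      constructor
      · rintro ⟨h5, h6⟩
        refine ⟨⟨h6, fun h7 => ?_⟩, h5⟩
        have h8 : J.filter (fun j => g j = k) = ∅ :=
          Finset.filter_eq_empty_iff.2 fun i hi => h7 i hi
        rw [h8] at h5
        simp at h5
      · rintro ⟨⟨h6, -⟩, h5⟩
        exact ⟨h5, h6⟩
    rw [h1, ← Finset.sum_add_distrib]
    refine Finset.sum_congr rfl fun J _ => ?_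
    have h2 : wt g M S A J k = S k := by
      unfold wt
      rw [if_neg hk]
    have h3 : wt g M S (insert k A) J k =
        S k + (if (J.filter fun j => g j = k).card = 1 then 1 else 0) := by
      unfold wt
      rw [if_pos (Finset.mem_insert_self k A), if_pos hkM]
    rw [h2, h3]
    ring
  · -- a group with one element
    have hA : ∀ J : Finset ι, (∀ l, Ok g M A J l) ↔
        (∀ j ∈ J, g j ≠ k) ∧ ∀ l, l ≠ k → Ok g M A J l := by
      intro J
      constructor
      · exact fun h => ⟨(h k).2 hk hkM, fun l _ => h l⟩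
      · rintro ⟨h0, h⟩ l
        by_cases hl : l = k
        · subst hl
          exact ⟨fun h => absurd h hk, fun _ _ => h0⟩
        · exact h l hl
    have hcard : ∀ J : Finset ι, (∃ j ∈ J, g j = k) ↔ (J.filter fun j => g j = k).card = 1 := by
      intro J
      constructor
      · rintro ⟨j, hj, hjk⟩
        refine le_antisymm ?_ (Finset.card_pos.2 ⟨j, Finset.mem_filter.2 ⟨hj, hjk⟩⟩)
        rw [← hM k hkM]
        exact Finset.card_le_card (Finset.filter_subset_filter _ (Finset.subset_univ J))
      · intro h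
        obtain ⟨j, hj⟩ := Finset.card_pos.1 (by rw [h]; exact one_pos)
        exact ⟨j, (Finset.mem_filter.1 hj).1, (Finset.mem_filter.1 hj).2⟩
    have hA' : ∀ J : Finset ι, (∀ l, Ok g M (insert k A) J l) ↔
        (J.filter fun j => g j = k).card = 1 ∧ ∀ l, l ≠ k → Ok g M A J l := by
      intro J
      constructor
      · intro h
        exact ⟨(hcard J).1 ((h k).1 (Finset.mem_insert_self k A)),
          fun l hl => (hOk J l hl).1 (h l)⟩
      · rintro ⟨h1, h2⟩ l
        by_cases hl : l = k
        · subst hl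
          exact ⟨fun _ => (hcard J).2 h1, fun h => absurd (Finset.mem_insert_self _ A) h⟩
        · exact (hOk J l hl).2 (h2 l hl)
    have h2 : ∀ J : Finset ι, wt g M S A J k = S k := by
      intro J
      unfold wt
      rw [if_neg hk]
    have h3 : ∀ J : Finset ι, wt g M S (insert k A) J k = 1 := by
      intro J
      unfold wt
      rw [if_pos (Finset.mem_insert_self k A), if_neg hkM]
    simp only [hA, hA', hsplit, hP, h2, h3, one_mul]
    exact bij g M A S X c hS hc k

theorem expand (g : ι → κ) (M : Finset κ) (S : κ → R) (X : ι → R) (c : Finset ι → R)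
    (hS : ∀ k, S k = ∑ j ∈ univ.filter (fun j => g j = k), X j)
    (hc : ∀ j J, (∀ i ∈ J, g i ≠ g j) → c (insert j J) = c J)
    (hM : ∀ k, k ∉ M → (univ.filter fun j => g j = k).card = 1) :
    Ph g M S X c ∅ = Ph g M S X c univ := by
  have h : ∀ A : Finset κ, Ph g M S X c ∅ = Ph g M S X c A := by
    intro A
    induction A using Finset.induction_on with
    | empty => rfl
    | insert k A hk ih => rw [ih, step g M S X c hS hc hM A k hk]
  exact h univ

end Pool.Agent.W253.NC
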